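import Mathlib

set_option autoImplicit false

namespace Pool.Agent.Results.MP_fc7805_al.Five

/-- the index set of the generators: pairs `1 ≤ p < q ≤ n` -/
def Gen (n : ℕ) : Type := {x : ℕ × ℕ // 1 ≤ x.1 ∧ x.1 < x.2 ∧ x.2 ≤ n}

/-- the three families of defining relators -/
def rels (n : ℕ) : Set (FreeGroup (Gen n)) :=
  {w | (∃ a : Gen n, w = FreeGroup.of a * FreeGroup.of a) ∨
    (∃ a b : Gen n, Disjoint (Set.Icc a.1.1 a.1.2) (Set.Icc b.1.1 b.1.2) ∧
      w = FreeGroup.of a * FreeGroup.of b * (FreeGroup.of b * FreeGroup.of a)⁻¹) ∨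
    (∃ a b c : Gen n, Set.Icc b.1.1 b.1.2 ⊆ Set.Icc a.1.1 a.1.2 ∧
      c.1 = (a.1.1 + a.1.2 - b.1.2, a.1.1 + a.1.2 - b.1.1) ∧
      w = FreeGroup.of a * FreeGroup.of b * (FreeGroup.of c * FreeGroup.of a)⁻¹)}

/-- the cactus group -/
abbrev J (n : ℕ) : Type := PresentedGroup (rels n)

abbrev K := DihedralGroup 0 × DihedralGroup 0
abbrev X := (Fin 5 → ℕ) × K

def rev (p q x : ℕ) : ℕ := if p ≤ x ∧ x ≤ q then p + q - x else x

def tau (I : Fin 5 → Bool) : K :=
  if I = ![true, true, false, false, false] then (.sr 0, 1)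
  else if I = ![false, true, true, false, false] then (.sr 1, 1)
  else if I = ![false, false, false, true, true] then (1, .sr 0)
  else if I = ![true, true, true, true, false] then (1, .sr 1) else 1

def msk (p q : ℕ) (u : Fin 5 → ℕ) : Fin 5 → Bool := fun l => decide (p ≤ u l ∧ u l ≤ q)

def act (p q : ℕ) (x : X) : X := (fun l => rev p q (x.1 l), tau (msk p q x.1) * x.2)

lemma tau_sq : ∀ I, tau I * tau I = 1 := by decide +kernel

lemma tau_comm : ∀ I L : Fin 5 → Bool,
    ((∀ l, I l = true → L l = true) ∨ ∀ l, ¬ (I l = true ∧ L l = true)) →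
      tau I * tau L = tau L * tau I := by decide +kernel

lemma act_inv (p q : ℕ) : Function.Involutive (act p q) := by
  rintro ⟨u, k⟩
  have h : msk p q (fun l => rev p q (u l)) = msk p q u := by
    funext l
    simp only [msk, rev]
    split_ifs <;> exact decide_eq_decide.2 (by omega)
  refine Prod.ext ?_ ?_
  · funext l
    simp only [act, rev]
    split_ifs <;> omega
  · simp only [act, h, ← mul_assoc, tau_sq, one_mul]

def phi0 (a : Gen 5) : Equiv.Perm X := (act_inv a.1.1 a.1.2).toPerm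

lemma phi0_apply (a : Gen 5) (x : X) : phi0 a x = act a.1.1 a.1.2 x := rfl

lemma rel_ok : ∀ w ∈ rels 5, FreeGroup.lift phi0 w = 1 := by
  rintro w (⟨a, rfl⟩ | ⟨⟨⟨p, q⟩, a1, a2, a3⟩, ⟨⟨m, r⟩, b1, b2, b3⟩, hd, rfl⟩ |
    ⟨⟨⟨p, q⟩, a1, a2, a3⟩, ⟨⟨m, r⟩, b1, b2, b3⟩, ⟨c, hc⟩, hs, hc', rfl⟩)
  · simp only [map_mul, FreeGroup.lift_apply_of]
    exact Equiv.ext fun x => act_inv _ _ x
  · simp only [map_mul, map_inv, FreeGroup.lift_apply_of, mul_inv_eq_one]
    simp only at a1 a2 a3 b1 b2 b3 hd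
    have hd' : q < m ∨ r < p := by
      by_contra hh
      have h5 : max p m ∈ Set.Icc p q := ⟨by omega, by omega⟩
      exact Set.disjoint_left.1 hd h5 ⟨by omega, by omega⟩
    refine Equiv.ext fun ⟨u, k⟩ => ?_
    have h1 : msk p q (fun l => rev m r (u l)) = msk p q u := by
      funext l
      simp only [msk, rev]
      split_ifs <;> exact decide_eq_decide.2 (by omega)
    have h2 : msk m r (fun l => rev p q (u l)) = msk m r u := by
      funext l
      simp only [msk, rev]
      split_ifs <;> exact decide_eq_decide.2 (by omega)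
    simp only [Equiv.Perm.mul_apply, phi0_apply]
    refine Prod.ext ?_ ?_
    · funext l
      simp only [act, rev]
      split_ifs <;> omega
    · simp only [act, h1, h2, ← mul_assoc]
      rw [tau_comm _ _ (Or.inr fun l => by simp only [msk, decide_eq_true_eq]; omega)]
  · simp only [map_mul, map_inv, FreeGroup.lift_apply_of, mul_inv_eq_one]
    simp only at a1 a2 a3 b1 b2 b3 hs hc'
    subst hc'
    have h3 := hs (a := m) ⟨le_rfl, b2.le⟩
    have h4 := hs (a := r) ⟨b2.le, le_rfl⟩
    obtain ⟨h3, -⟩ := h3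
    obtain ⟨-, h4⟩ := h4
    refine Equiv.ext fun ⟨u, k⟩ => ?_
    have h1 : msk p q (fun l => rev m r (u l)) = msk p q u := by
      funext l
      simp only [msk, rev]
      split_ifs <;> exact decide_eq_decide.2 (by omega)
    have h2 : msk (p + q - r) (p + q - m) (fun l => rev p q (u l)) = msk m r u := by
      funext l
      simp only [msk, rev]
      split_ifs <;> exact decide_eq_decide.2 (by omega)
    simp only [Equiv.Perm.mul_apply, phi0_apply]
    refine Prod.ext ?_ ?_
    · funext l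
      simp only [act, rev]
      split_ifs <;> omega
    · simp only [act, h1, h2, ← mul_assoc]
      rw [tau_comm (msk m r u) _ (Or.inl fun l => by simp only [msk, decide_eq_true_eq]; omega)]

def phi : J 5 →* Equiv.Perm X := PresentedGroup.toGroup rel_ok

def g12 : Gen 5 := ⟨(1, 2), by decide⟩
def g13 : Gen 5 := ⟨(1, 3), by decide⟩
def g14 : Gen 5 := ⟨(1, 4), by decide⟩
def g15 : Gen 5 := ⟨(1, 5), by decide⟩
def g23 : Gen 5 := ⟨(2, 3), by decide⟩
def g24 : Gen 5 := ⟨(2, 4), by decide⟩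
def g34 : Gen 5 := ⟨(3, 4), by decide⟩
def g45 : Gen 5 := ⟨(4, 5), by decide⟩

def s (a : Gen 5) : J 5 := PresentedGroup.of a

lemma rel_one {w : FreeGroup (Gen 5)} (h : w ∈ rels 5) : PresentedGroup.mk (rels 5) w = 1 :=
  PresentedGroup.one_of_mem h

lemma nest (a b c : Gen 5) (h1 : a.1.1 ≤ b.1.1 ∧ b.1.2 ≤ a.1.2 ∧
    c.1 = (a.1.1 + a.1.2 - b.1.2, a.1.1 + a.1.2 - b.1.1)) : SemiconjBy (s a) (s b) (s c) := by
  have := rel_one (Or.inr (Or.inr ⟨a, b, c, Set.Icc_subset_Icc h1.1 h1.2.1, h1.2.2, rfl⟩))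
  simp only [map_mul, map_inv, mul_inv_eq_one] at this
  exact this

lemma disj (a b : Gen 5) (h1 : b.1.2 < a.1.1) : SemiconjBy (s a) (s b) (s b) := by
  have := rel_one (Or.inr (Or.inl ⟨a, b, Set.disjoint_left.2 fun x hx hy => by
    have := hx.1; have := hy.2; omega, rfl⟩))
  simp only [map_mul, map_inv, mul_inv_eq_one] at this
  exact this

def wa : List (Gen 5) := [g12, g13]
def wb : List (Gen 5) := [g13, g45, g14, g15, g14]
def ev (w : List (Gen 5)) : J 5 := (w.map s).prod

lemma ab_comm : Commute (ev wb) (ev wa) := by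
  have e1 : ev wb = s g13 * (s g45 * (s g14 * (s g15 * s g14))) := by
    simp [ev, wb]
  have e2 : ev wa = s g12 * s g13 := by simp [ev, wa]
  rw [e1, e2]
  refine Commute.mul_right ?_ ?_
  · exact (nest _ g23 _ (by decide)).mul_left <| (disj _ _ (by decide)).mul_left <|
      (nest _ g23 _ (by decide)).mul_left <| (nest _ g34 _ (by decide)).mul_left
        (nest _ _ _ (by decide))
  · exact (nest _ g13 _ (by decide)).mul_left <| (disj _ _ (by decide)).mul_left <|
      (nest _ g24 _ (by decide)).mul_left <| (nest _ g24 _ (by decide)).mul_left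
        (nest _ _ _ (by decide))

def run : List (Gen 5) → X → X
  | [], x => x
  | a :: w, x => act a.1.1 a.1.2 (run w x)

lemma phi_ev (w : List (Gen 5)) (x : X) : phi (ev w) x = run w x := by
  induction w with
  | nil => simp [ev, run]
  | cons a w ih =>
    have : ev (a :: w) = s a * ev w := by simp [ev]
    rw [this, map_mul, Equiv.Perm.mul_apply, ih, run]
    simp only [phi, s, PresentedGroup.toGroup.of, phi0_apply]

lemma run_eq (w : List (Gen 5)) (u : Fin 5 → ℕ) (k : K) :
    run w (u, k) = ((run w (u, 1)).1, (run w (u, 1)).2 * k) := by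
  induction w with
  | nil => simp [run]
  | cons a w ih => simp only [run]; rw [ih]; simp only [act, mul_assoc]

def u0 : Fin 5 → ℕ := ![1, 2, 3, 4, 5]

lemma zstep (π : Equiv.Perm X) (c : K) (h : ∀ k, π (u0, k) = (u0, c * k)) (i : ℤ) (k : K) :
    (π ^ i) (u0, k) = (u0, c ^ i * k) := by
  induction i using Int.induction_on generalizing k with
  | zero => simp
  | succ i ih => rw [zpow_add_one, Equiv.Perm.mul_apply, h, ih, zpow_add_one, mul_assoc]
  | pred i ih =>
    have h' : π⁻¹ (u0, k) = (u0, c⁻¹ * k) := by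
      rw [Equiv.Perm.inv_eq_iff_eq, h, mul_inv_cancel_left]
    rw [zpow_sub_one, Equiv.Perm.mul_apply, h', ih, zpow_sub_one, mul_assoc]

def wA : List (Gen 5) := wa ++ wa ++ wa ++ wa ++ wa ++ wa

lemma evA : ev wA = ev wa ^ 6 := by
  simp only [wA, ev, List.map_append, List.prod_append, pow_succ, pow_zero, one_mul]

lemma runA : run wA (u0, 1) = (u0, (.r 2, 1)) := by decide +kernel
lemma runB : run wb (u0, 1) = (u0, (1, .r 1)) := by decide +kernel

def emb : Multiplicative (Fin 2 → ℤ) →* J 5 where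
  toFun v := ev wA ^ (v.toAdd 0) * ev wb ^ (v.toAdd 1)
  map_one' := by simp
  map_mul' v w := by
    have hc : Commute (ev wb) (ev wA) := by rw [evA]; exact ab_comm.pow_right 6
    simp only [toAdd_mul, Pi.add_apply, zpow_add]
    exact (hc.symm.zpow_zpow _ _).mul_mul_mul_comm _ _

lemma emb_inj : Function.Injective emb := by
  refine (injective_iff_map_eq_one emb).2 fun v hv => ?_
  have hA : ∀ k, phi (ev wA) (u0, k) = (u0, ((.r 2, 1) : K) * k) := fun k => by
    rw [phi_ev, run_eq, runA]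
  have hB : ∀ k, phi (ev wb) (u0, k) = (u0, ((1, .r 1) : K) * k) := fun k => by
    rw [phi_ev, run_eq, runB]
  have h : phi (ev wA ^ (v.toAdd 0) * ev wb ^ (v.toAdd 1)) (u0, 1) = (u0, 1) := by
    have : ev wA ^ (v.toAdd 0) * ev wb ^ (v.toAdd 1) = 1 := hv
    rw [this, map_one]
    rfl
  rw [map_mul, map_zpow, map_zpow, Equiv.Perm.mul_apply, zstep _ _ hB, zstep _ _ hA] at h
  have h1 := congrArg (fun x : X => x.2.1) h
  have h2 := congrArg (fun x : X => x.2.2) h
  simp only [Prod.fst_mul, Prod.snd_mul, Prod.pow_fst, Prod.pow_snd, one_zpow, mul_one, one_mul,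
    Prod.fst_one, Prod.snd_one, DihedralGroup.r_zpow] at h1 h2
  have h3 : (2 : ℤ) * v.toAdd 0 = 0 := DihedralGroup.r.inj h1
  have h4 : v.toAdd 1 = 0 := DihedralGroup.r.inj h2
  have h5 : v.toAdd = 0 := by
    funext i
    fin_cases i
    · show v.toAdd 0 = 0
      omega
    · show v.toAdd 1 = 0
      omega
  exact toAdd_eq_zero.1 h5

theorem result : ∃ n k : ℕ, 2 ≤ n ∧ n / 3 < k ∧
    ∃ H : Subgroup (J n), Nonempty (Multiplicative (Fin k → ℤ) ≃* H) :=
  ⟨5, 2, by norm_num, by norm_num, emb.range, ⟨MonoidHom.ofInjective emb_inj⟩⟩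

end Pool.Agent.Results.MP_fc7805_al.Five
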